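import Pool.Agent.Lib.MP_6d0ce9_ag.An.Exist
import Pool.Agent.Lib.MP_6d0ce9_ag.An.Van
import Pool.Agent.Lib.MP_6d0ce9_ag.TTDefs

/-!
# The classification of the t-structures

Example to keep in mind: `T` is the category of constructible motives with rational coefficients
over a field of characteristic zero, `R i` are realisations, `W = ℚ(1)[2]`, `S` is the class of
Chow motives, and the polarised objects are the motives `h(X)(d/2)[d]` with `X` smooth projective
of even dimension `d`.
-/

universe w w' v u

open CategoryTheory MonoidalCategory Pretriangulated Triangulated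
open Pool.Agent.Lib.MotT

namespace Pool.Agent.Results.MP_6d0ce9_ag.Classification

/-- Let `T` be a rigid tensor triangulated category with connected unit and split idempotents.
Let `R i` be realisations of `T` over fields of characteristic zero such that for all `i` the
objects concentrated in one and the same degree for `R o` and `R i` generate `T`. Let `W` be an
invertible object of `T`, concentrated in degree `-2` for `R o`, with a nonzero morphism
`𝟙 ⟶ W[-1]` (in the example: a unit of the field which is not a root of unity). Let `S` be a class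
of objects with the properties of the class of Chow motives: besides `IsChowClass` we assume that
`S` contains `W`, is stable under retracts, and that for every `A` in `S` some twist of `A` is a
retract of a twist of an object polarised with respect to `W`.

Suppose that `R o` is conservative.

1. For every non-degenerate tensor compatible t-structure `t` on `T` there is exactly one integer
`m ≥ 2` such that `W[-m]` is in the heart of `t`.

2. If `t` is a non-degenerate tensor compatible t-structure with `W[-m]` in its heart then `t` is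
the only one, and all the `R i` are t-exact for `t` if and only if `m = 2`.

3. For `m ≥ 2` there is a non-degenerate tensor compatible t-structure with `W[-m]` in its heart if
and only if the objects of `S` have Chow-Künneth decompositions and `NumUpTo` holds: for `A` in
`S` concentrated in degree `j` and `2n ≤ mj` every nonzero `𝟙 ⟶ A[n]` has a nonzero composition
with some `A[n] ⟶ 𝟙` (and `A = 0` if `mj` is odd).

In general `T` has a non-degenerate tensor compatible t-structure for which all the `R i` are
t-exact if and only if `R o` is conservative, `T` has *any* non-degenerate tensor compatible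
t-structure, and the conjecture of Beilinson and Soulé holds: for `A` in `S` concentrated in
degree `j < 0` and `n ≤ j` there are no nonzero morphisms `𝟙 ⟶ A[n]`. -/
theorem result {T : Type u} [Category.{v} T] [Preadditive T] [Limits.HasZeroObject T]
    [HasShift T ℤ] [∀ n : ℤ, (shiftFunctor T n).Additive] [Pretriangulated T]
    [MonoidalCategory T] [SymmetricCategory T] [RigidTT T]
    {I : Type w'} {F : I → Type w} [∀ i, Field (F i)] [∀ i, CharZero (F i)]
    (R : ∀ i, Realization T (F i)) (o : I) (hcom : ∀ i, (R o).CommonGen (R i))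
    (W W' : T) (e : W ⊗ W' ≅ 𝟙_ T) (hW : (R o).ConcentratedIn (-2) W)
    (u : 𝟙_ T ⟶ W⟦(-1 : ℤ)⟧) (hu : u ≠ 0)
    (S : ObjectProperty T) (hS : IsChowClass S) [S.IsStableUnderRetracts] (hWS : S W)
    (hpol : PolarisedGenerated (R o) W S) :
    ((R o).Conservative →
      (∀ t : TStructure T, Nondegenerate t → TensorCompatible t →
        ∃! m : ℤ, 2 ≤ m ∧ t.heart (W⟦-m⟧)) ∧
      (∀ (m : ℤ) (t : TStructure T), Nondegenerate t → TensorCompatible t →
        t.heart (W⟦-m⟧) →
          (∀ t' : TStructure T, Nondegenerate t' → TensorCompatible t' →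
            t'.heart (W⟦-m⟧) → t' = t) ∧
          ((∀ i, (R i).TExact t) ↔ m = 2)) ∧
      ∀ m : ℤ, 2 ≤ m →
        ((∃ t : TStructure T, Nondegenerate t ∧ TensorCompatible t ∧ t.heart (W⟦-m⟧)) ↔
          ChowKunneth (R o) S ∧ NumUpTo (R o) S m)) ∧
    ((∃ t : TStructure T, Nondegenerate t ∧ TensorCompatible t ∧ ∀ i, (R i).TExact t) ↔
      (R o).Conservative ∧ (∃ t : TStructure T, Nondegenerate t ∧ TensorCompatible t) ∧
        BeilinsonSoule (R o) S) := by
  have := RigidTT.octahedron (T := T)
  let _ := RigidTT.commShift (T := T)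
  have := RigidTT.exact_left (T := T)
  have := RigidTT.split (T := T)
  have hrig := RigidTT.rigid (T := T)
  have hconn := RigidTT.connected (T := T)
  have hW0 : (R o).Conservative → ¬ Limits.IsZero W := by
    intro hcons h0
    obtain ⟨v, hv⟩ := Realization.exists_ne_zero_of_inverse e hW
    exact hv (((R o).van_of_isZero h0 (-2)).elim _ _)
  -- levels of `W`
  have lev : ∀ (t : TStructure T) (m : ℤ), t.heart (W⟦-m⟧) ↔ t.IsLE W (-m) ∧ t.IsGE W (-m) := by
    intro t m
    rw [heart_iff]
    constructor
    · rintro ⟨h3, h4⟩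
      exact ⟨t.isLE_of_shift W (-m) (-m) 0 (by lia), t.isGE_of_shift W (-m) (-m) 0 (by lia)⟩
    · rintro ⟨h3, h4⟩
      exact ⟨t.isLE_shift W (-m) (-m) 0 (by lia), t.isGE_shift W (-m) (-m) 0 (by lia)⟩
  have two : (R o).Conservative → ∀ t : TStructure T, Nondegenerate t → TensorCompatible t →
      ∀ m : ℤ, t.heart (W⟦-m⟧) → 2 ≤ m := by
    intro hcons t hnd ht m h
    exact Realization.two_le_of_unit hnd ht hrig hcons hW ((lev t m).1 h).2 u hu
  have exact2 : (R o).Conservative → ∀ t : TStructure T, Nondegenerate t → TensorCompatible t →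
      t.heart (W⟦(-2 : ℤ)⟧) → ∀ i, (R i).TExact t := by
    intro hcons t hnd ht h
    have hR := (exact_iff hrig hcons e hW hS hpol hnd ht).2 ((lev t 2).1 h)
    obtain ⟨t', hnd', ht', hR'⟩ := exists_t_of_inj hrig hconn R o hcom
      (Realization.injectiveOnPure_of_coconnective
        (Realization.injectiveOnCoconnective_of_exact hnd ht hrig hconn hR))
    rwa [Realization.tstructure_ext hR (hR' o) hcons]
  have ex : (R o).Conservative → ∀ m : ℤ, 2 ≤ m →
      ((∃ t : TStructure T, Nondegenerate t ∧ TensorCompatible t ∧ t.heart (W⟦-m⟧)) ↔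
        ChowKunneth (R o) S ∧ NumUpTo (R o) S m) := by
    intro hcons m hm
    rw [numUpTo_iff hrig hS hm]
    constructor
    · rintro ⟨t, hnd, ht, h⟩
      obtain ⟨h1, h2⟩ := (lev t m).1 h
      have hGd := gd_of_mem hnd ht hrig hcons e hW hm h1 h2 hpol
      obtain ⟨hCK, hnum⟩ := of_any hnd ht hrig hcons e hW u hu hS hpol
      exact ⟨hCK, hnum, vanishing_of_gd hnd ht hrig hconn hcons hm hS hGd,
        fun A hA j hAj => isZero_of_odd hnd ht hrig hcons hGd hS hA hAj⟩
    · rintro ⟨hCK, hnum, hV, hodd⟩
      obtain ⟨t, hnd, ht, hD⟩ := exists_t_of_vanishing hS hCK hnum hm hV hodd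
      refine ⟨t, hnd, ht, (lev t m).2 (hD (-m) W ?_)⟩
      exact ⟨W, -2, 0, hWS, hW, by ring, ⟨((shiftFunctorZero T ℤ).app W).symm⟩⟩
  refine ⟨fun hcons => ⟨?_, ?_, ex hcons⟩, ?_, ?_⟩
  · intro t hnd ht
    obtain ⟨s, h1, h2, -, -⟩ := Realization.exists_degree hnd ht hrig hcons e
    obtain ⟨m, rfl⟩ : ∃ m : ℤ, s = -m := ⟨-s, by ring⟩
    have h := (lev t m).2 ⟨h1, h2⟩
    refine ⟨m, ⟨two hcons t hnd ht m h, h⟩, ?_⟩
    rintro m' ⟨-, h'⟩
    obtain ⟨h3, h4⟩ := (lev t m').1 h'
    by_contra hne
    apply hW0 hcons
    rw [Limits.IsZero.iff_id_eq_zero]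
    rcases lt_or_gt_of_ne hne with hlt | hlt
    · exact t.zero_of_isLE_of_isGE _ (-m) (-m') (by lia) h1 h4
    · exact t.zero_of_isLE_of_isGE _ (-m') (-m) (by lia) h3 h2
  · intro m t hnd ht h
    have hm := two hcons t hnd ht m h
    obtain ⟨h1, h2⟩ := (lev t m).1 h
    refine ⟨?_, ?_, ?_⟩
    · intro t' hnd' ht' h'
      obtain ⟨h3, h4⟩ := (lev t' m).1 h'
      exact tstructure_unique hrig hcons e hW hS hpol hm hnd' ht' h3 h4 hnd ht h1 h2
    · intro hR
      obtain ⟨h3, h4⟩ := (exact_iff hrig hcons e hW hS hpol hnd ht).1 (hR o)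
      by_contra hne
      apply hW0 hcons
      rw [Limits.IsZero.iff_id_eq_zero]
      exact t.zero_of_isLE_of_isGE _ (-m) (-2) (by lia) h1 h4
    · rintro rfl
      exact exact2 hcons t hnd ht h
  · rintro ⟨t, hnd, ht, hR⟩
    have hcons := Realization.conservative_of_exact hnd ht hrig hconn (hR o)
    refine ⟨hcons, ⟨t, hnd, ht⟩, ?_⟩
    exact beilinsonSoule_iff.2 ((numUpTo_iff hrig hS le_rfl).1
      ((ex hcons 2 le_rfl).1 ⟨t, hnd, ht, (lev t 2).2
        ((exact_iff hrig hcons e hW hS hpol hnd ht).1 (hR o))⟩).2).2.1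
  · rintro ⟨hcons, ⟨t, hnd, ht⟩, hV⟩
    obtain ⟨hCK, hnum⟩ := of_any hnd ht hrig hcons e hW u hu hS hpol
    obtain ⟨t', hnd', ht', h'⟩ := (ex hcons 2 le_rfl).2 ⟨hCK, (numUpTo_iff hrig hS le_rfl).2
      ⟨hnum, beilinsonSoule_iff.1 hV, fun A _ j _ h => absurd (even_two.mul_left j) h⟩⟩
    exact ⟨t', hnd', ht', exact2 hcons t' hnd' ht' h'⟩

end Pool.Agent.Results.MP_6d0ce9_ag.Classification
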