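import Pool.Agent.Lib.MP_6d0ce9_ag.LefMain
import Pool.Agent.Lib.MP_6d0ce9_ag.TTDefs

/-!
# The motivic t-structure and the conjectures of Murre and Beilinson over the prime field

Example to keep in mind: `T` is the category of constructible motives with rational coefficients
over an arbitrary field `K` of any characteristic, `T₀` the one over its prime field (or any
other subfield), and `S` is the class of Chow motives over the prime field.
-/

universe w w' v u

open CategoryTheory MonoidalCategory Pretriangulated Triangulated
open Pool.Agent.Lib.MotT

namespace Pool.Agent.Results.MP_6d0ce9_ag.Murre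

/-- Let `T` and `T₀` be rigid tensor triangulated categories with connected units and split
idempotents. Let `R i` be realisations of `T` over fields of characteristic zero such that for all
`i` the objects concentrated in one and the same degree for `R o` and `R i` generate `T`. Let
`R₀` be a realisation of `T₀` over the same field as `R o` such that the objects concentrated in
one degree generate `T₀`. Let `S` be a class of objects of `T₀` with the properties of the class
of Chow motives: besides `IsChowClass` we assume that `S` is stable under retracts and that every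
object of `S` is a retract of an object of `S` with the hard Lefschetz property. Suppose that
there is a faithful base change functor from `T₀` to `T` compatible with shifts, unit objects and
with `R₀` and `R o`, and that the morphisms from the unit object of `T` spread out to lisse
objects of models over `T₀`. Then `T` has a non-degenerate tensor compatible t-structure for which
all the `R i` are t-exact if and only if the objects of `S` have Chow-Künneth decompositions
and `RatEqNumUpTo R₀ S` holds: for `A` in `S` concentrated in degree `j` and `n ≤ j` every nonzero
`f : 𝟙 ⟶ A[n]` has a nonzero composition with some `g : A[n] ⟶ 𝟙`. -/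
theorem result {T : Type u} [Category.{v} T] [Preadditive T] [Limits.HasZeroObject T]
    [HasShift T ℤ] [∀ n : ℤ, (shiftFunctor T n).Additive] [Pretriangulated T]
    [MonoidalCategory T] [SymmetricCategory T] [RigidTT T]
    {I : Type w'} {F : I → Type w} [∀ i, Field (F i)] [∀ i, CharZero (F i)]
    (R : ∀ i, Realization T (F i)) (o : I) (hcom : ∀ i, (R o).CommonGen (R i))
    {T₀ : Type u} [Category.{v} T₀] [Preadditive T₀] [Limits.HasZeroObject T₀]
    [HasShift T₀ ℤ] [∀ n : ℤ, (shiftFunctor T₀ n).Additive] [Pretriangulated T₀]
    [MonoidalCategory T₀] [SymmetricCategory T₀] [RigidTT T₀]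
    (R₀ : Realization T₀ (F o)) (hcom₀ : R₀.CommonGen R₀) (S : ObjectProperty T₀)
    (hS : IsChowClass S) [S.IsStableUnderRetracts] (hL : LefschetzGenerated R₀ S)
    (bc : BaseChange R₀ (R o)) (hs : SpreadsOut (R o) R₀) :
    (∃ t : TStructure T, Nondegenerate t ∧ TensorCompatible t ∧ ∀ i, (R i).TExact t) ↔
      ChowKunneth R₀ S ∧ RatEqNumUpTo R₀ S := by
  have := RigidTT.octahedron (T := T)
  let _ := RigidTT.commShift (T := T)
  have := RigidTT.exact_left (T := T)
  have := RigidTT.split (T := T)
  have hrig := RigidTT.rigid (T := T)
  have hconn := RigidTT.connected (T := T)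
  have := RigidTT.octahedron (T := T₀)
  let _ := RigidTT.commShift (T := T₀)
  have := RigidTT.exact_left (T := T₀)
  have := RigidTT.split (T := T₀)
  have hrig₀ := RigidTT.rigid (T := T₀)
  have hconn₀ := RigidTT.connected (T := T₀)
  have := bc.comm
  have := bc.preservesZero
  have := bc.faithful
  constructor
  · rintro ⟨t, hnd, ht, hR⟩
    have hinj := Realization.injectiveOnPure_of_coconnective
      (injectiveOnCoconnective_of_baseChange bc.fn bc.iso bc.unitIso
        (Realization.injectiveOnCoconnective_of_exact hnd ht hrig hconn (hR o)))
    obtain ⟨t₀, -, -, hR₀⟩ := exists_t_of_inj hrig₀ hconn₀ (fun _ : Unit => R₀) ()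
      (fun _ => hcom₀) hinj
    exact ⟨chowKunneth_of_exact hrig₀ hinj (hR₀ ()) hL, ratEqNumUpTo_of_inj hrig₀ hinj hS⟩
  · rintro ⟨hCK, hnum⟩
    obtain ⟨t₀, hnd, ht, hR₀⟩ := exists_t_of_chowKunneth hrig₀ hconn₀ hcom₀ hS hCK hnum
    exact exists_t_of_inj hrig hconn R o hcom (Realization.injectiveOnPure_of_coconnective
      (Realization.injectiveOnCoconnective_of_spreadsOut hs
        (Realization.injectiveOnCoconnective_of_exact hnd ht hrig₀ hconn₀ hR₀)))

end Pool.Agent.Results.MP_6d0ce9_ag.Murre
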