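import Pool.Agent.Lib.MP_6d0ce9_ag.NumConv
import Pool.Agent.Lib.MP_6d0ce9_ag.TTDefs
import Pool.Agent.Lib.MP_6d0ce9_ag.St.Uniq
import Pool.Agent.Lib.MP_6d0ce9_ag.St2.Asm
import Pool.Agent.Lib.MP_6d0ce9_ag.St2.Cg
import Pool.Agent.Lib.MP_6d0ce9_ag.SS.Semi

/-!
# The motivic t-structure in positive characteristic and cycles over finite fields

Example to keep in mind: `T₀` is the category of constructible motives with rational coefficients
over a finite field, and `T` the one over an arbitrary extension `K` of this finite field.
-/

universe w w' v u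

open CategoryTheory MonoidalCategory Pretriangulated Triangulated
open Pool.Agent.Lib.MotT

namespace Pool.Agent.Results.MP_6d0ce9_ag.PositiveChar

/-- Let `T` and `T₀` be rigid tensor triangulated categories with connected units and split
idempotents. Let `R i` be realisations of `T` over fields of characteristic zero such that for all
`i` the objects concentrated in one and the same degree for `R o` and `R i` generate `T`. Let
`R₀` be a realisation of `T₀` over the same field as `R o`, and let `S` be a class of objects of
`T₀` with the properties of the class of smooth projective motives and with a Frobenius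
endomorphism. Suppose that there is a faithful base change functor from `T₀` to `T` compatible
with shifts, unit objects and with `R₀` and `R o`, and that the morphisms from the unit object of
`T` spread out to lisse objects of models over `T₀`.

Then the following conditions are equivalent:
* `T` has a non-degenerate tensor compatible t-structure for which all the `R i` are t-exact;
* `T` has exactly one such t-structure;
* `S` satisfies Parshin's conjecture and the equality of rational and numerical equivalence;
* `T₀` is semisimple: for every morphism `f` of `T₀` there is `g` with `f ≫ g ≫ f = f`;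
* `R₀` is conservative and `T₀` has a non-degenerate tensor compatible t-structure whose heart
  contains the invertible objects whose cohomology is concentrated in degree `0` (no exactness
  of a realisation is required here). -/
theorem result {T : Type u} [Category.{v} T] [Preadditive T] [Limits.HasZeroObject T]
    [HasShift T ℤ] [∀ n : ℤ, (shiftFunctor T n).Additive] [Pretriangulated T]
    [MonoidalCategory T] [SymmetricCategory T] [RigidTT T]
    {I : Type w'} {F : I → Type w} [∀ i, Field (F i)] [∀ i, CharZero (F i)]
    (R : ∀ i, Realization T (F i)) (o : I) (hcom : ∀ i, (R o).CommonGen (R i))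
    {T₀ : Type u} [Category.{v} T₀] [Preadditive T₀] [Limits.HasZeroObject T₀]
    [HasShift T₀ ℤ] [∀ n : ℤ, (shiftFunctor T₀ n).Additive] [Pretriangulated T₀]
    [MonoidalCategory T₀] [SymmetricCategory T₀] [RigidTT T₀]
    (R₀ : Realization T₀ (F o)) (S : ObjectProperty T₀) (hS : IsChowClass S)
    (Fr : Frobenius R₀ S) (bc : BaseChange R₀ (R o)) (hs : SpreadsOut (R o) R₀) :
    List.TFAE [
      ∃ t : TStructure T, Nondegenerate t ∧ TensorCompatible t ∧ ∀ i, (R i).TExact t,
      ∃! t : TStructure T, Nondegenerate t ∧ TensorCompatible t ∧ ∀ i, (R i).TExact t,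
      Parshin S ∧ RatEqNum S,
      ∀ (X Y : T₀) (f : X ⟶ Y), ∃ g : Y ⟶ X, f ≫ g ≫ f = f,
      R₀.Conservative ∧ ∃ t₀ : TStructure T₀, Nondegenerate t₀ ∧ TensorCompatible t₀ ∧
        ∀ L L' : T₀, Nonempty (L ⊗ L' ≅ 𝟙_ T₀) → R₀.ConcentratedIn 0 L → t₀.heart L] := by
  have := RigidTT.octahedron (T := T)
  let _ := RigidTT.commShift (T := T)
  have := RigidTT.exact_left (T := T)
  have := RigidTT.split (T := T)
  have hrig := RigidTT.rigid (T := T)
  have hconn := RigidTT.connected (T := T)
  have := RigidTT.octahedron (T := T₀)
  let _ := RigidTT.commShift (T := T₀)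
  have := RigidTT.exact_left (T := T₀)
  have := RigidTT.split (T := T₀)
  have hrig₀ := RigidTT.rigid (T := T₀)
  have hconn₀ := RigidTT.connected (T := T₀)
  have := bc.comm
  have := bc.preservesZero
  have := bc.faithful
  have key : ∀ t₀ : TStructure T₀, Nondegenerate t₀ → TensorCompatible t₀ →
      (R₀.TExact t₀ ↔ R₀.Conservative ∧ ∀ L L' : T₀, Nonempty (L ⊗ L' ≅ 𝟙_ T₀) →
        R₀.ConcentratedIn 0 L → t₀.heart L) := by
    intro t₀ hnd₀ ht₀
    constructor
    · intro hR₀
      have hcons₀ := Realization.conservative_of_exact hnd₀ ht₀ hrig₀ hconn₀ hR₀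
      exact ⟨hcons₀, fun L _ _ hL => Realization.heart_of_conc hR₀ hcons₀ hL⟩
    · rintro ⟨hcons₀, hinv⟩
      exact Realization.texact_of_frobenius hnd₀ ht₀ hrig₀ hcons₀ hinv Fr hS.generates
  tfae_have 2 → 1 := fun h => h.exists
  tfae_have 1 → 2 := by
    rintro ⟨t, hnd, ht, hR⟩
    refine ⟨t, ⟨hnd, ht, hR⟩, ?_⟩
    rintro t' ⟨-, -, hR'⟩
    exact Realization.tstructure_ext (hR' o) (hR o)
      (Realization.conservative_of_exact hnd ht hrig hconn (hR o))
  tfae_have 1 → 3 := by
    rintro ⟨t, hnd, ht, hR⟩
    have hcons := Realization.conservative_of_exact hnd ht hrig hconn (hR o)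
    exact parshin_ratEqNum (RigidTT.rigid (T := T₀))
      (conservative_of_covered (covered_of_baseChange bc.fn bc.iso) hcons)
      (injectiveOnPure_of_baseChange hnd ht hrig hconn (hR o) bc.fn bc.iso)
      (nilpotent_of_baseChange hnd ht hrig hconn (hR o) bc.fn bc.iso) Fr hS
  tfae_have 3 → 1 := by
    rintro ⟨hp, hn⟩
    exact exists_t_of_inj hrig hconn R o hcom
      (Realization.injectiveOnPure_of_coconnective
        (Realization.injectiveOnCoconnective_of_spreadsOut hs
          (fun _ _ f hf => injective_of_ratEqNum hS hp hn f hf)))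
  tfae_have 3 → 4 := fun h _ _ f => semisimple_of_ratEqNum R₀ hrig₀ hS h.1 h.2 f
  tfae_have 4 → 3 := fun h => ratEqNum_of_semisimple hS h
  tfae_have 1 → 5 := by
    rintro ⟨t, hnd, ht, hR⟩
    have hcons := Realization.conservative_of_exact hnd ht hrig hconn (hR o)
    have hcons₀ := conservative_of_covered (covered_of_baseChange bc.fn bc.iso) hcons
    have hcom₀ := Realization.commonGen_of_frobenius hcons₀
      (nilpotent_of_baseChange hnd ht hrig hconn (hR o) bc.fn bc.iso) Fr hS.generates
    obtain ⟨t₀, hnd₀, ht₀, hR₀⟩ := exists_t_of_inj hrig₀ hconn₀ (fun _ : Unit => R₀) ()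
      (fun _ => hcom₀) (injectiveOnPure_of_baseChange hnd ht hrig hconn (hR o) bc.fn bc.iso)
    obtain ⟨h1, h2⟩ := (key t₀ hnd₀ ht₀).1 (hR₀ ())
    exact ⟨h1, t₀, hnd₀, ht₀, h2⟩
  tfae_have 5 → 1 := by
    rintro ⟨hcons₀, t₀, hnd₀, ht₀, hinv⟩
    have hR₀ := (key t₀ hnd₀ ht₀).2 ⟨hcons₀, hinv⟩
    exact exists_t_of_inj hrig hconn R o hcom
      (Realization.injectiveOnPure_of_coconnective
        (Realization.injectiveOnCoconnective_of_spreadsOut hs
          (Realization.injectiveOnCoconnective_of_exact hnd₀ ht₀ hrig₀ hconn₀ hR₀)))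
  tfae_finish

end Pool.Agent.Results.MP_6d0ce9_ag.PositiveChar
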