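import Pool.Agent.Lib.MP_6d0ce9_ag.An.Pic
import Pool.Agent.Lib.MP_6d0ce9_ag.Spread
import Pool.Agent.Lib.MP_6d0ce9_ag.TTDefs

/-!
# t-structures and invertible objects

Example to keep in mind: `T` is the category of constructible motives with rational coefficients
over a field `K` of any characteristic, `R i` are the `ℓ`-adic realisations, and `T₀` is the
category over the prime field.
-/

universe w w' v u

open CategoryTheory MonoidalCategory Pretriangulated Triangulated
open Pool.Agent.Lib.MotT

namespace Pool.Agent.Results.MP_6d0ce9_ag.Rigidity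

/-- Let `T` and `T₀` be rigid tensor triangulated categories with connected units and split
idempotents. Let `R i` be realisations of `T` over fields of characteristic zero such that for all
`i` the objects concentrated in one and the same degree for `R o` and `R i` generate `T`. Let
`R₀` be a realisation of `T₀` over the same field as `R o` such that the objects concentrated in
one degree generate `T₀`. Suppose that there is a faithful base change functor from `T₀` to `T`
compatible with shifts, unit objects and with `R₀` and `R o`, and that the morphisms from the unit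
object of `T` spread out to lisse objects of models over `T₀`.

1. For every non-degenerate tensor compatible t-structure `t` on `T₀` the realisation `R₀` is
t-exact if and only if `R₀` is conservative and `R₀(L)` is concentrated in degree `0` for all
invertible objects `L` in the heart of `t`.

2. If `R₀` is conservative then a non-degenerate tensor compatible t-structure on `T₀` is
determined by the invertible objects in its heart.

3. If `R₀` is conservative and `t` is any non-degenerate tensor compatible t-structure on `T₀` then
`T` has a non-degenerate tensor compatible t-structure for which all the `R i` are t-exact if and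
only if there are no nonzero morphisms from the unit object to the objects `M` of `D^{≤ -1}` with
`H^i(M) = 0` for all `i < 0`.

4. The following are equivalent: `T` has a non-degenerate tensor compatible t-structure for which
all the `R i` are t-exact; `T` has exactly one such t-structure; `T₀` has a non-degenerate tensor
compatible t-structure for which `R₀` is t-exact; `R₀` is conservative and `T₀` has a
non-degenerate tensor compatible t-structure such that `R₀(L)` is concentrated in degree `0` for
all invertible objects `L` in its heart; `R₀` is conservative and `T₀` has a non-degenerate tensor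
compatible t-structure with the property in 3; for every object `M` of `T₀` whose cohomology for
`R₀` vanishes in negative degrees every morphism `𝟙 ⟶ M` which induces zero on `H^0` is zero. -/
theorem result {T : Type u} [Category.{v} T] [Preadditive T] [Limits.HasZeroObject T]
    [HasShift T ℤ] [∀ n : ℤ, (shiftFunctor T n).Additive] [Pretriangulated T]
    [MonoidalCategory T] [SymmetricCategory T] [RigidTT T]
    {I : Type w'} {F : I → Type w} [∀ i, Field (F i)] [∀ i, CharZero (F i)]
    (R : ∀ i, Realization T (F i)) (o : I) (hcom : ∀ i, (R o).CommonGen (R i))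
    {T₀ : Type u} [Category.{v} T₀] [Preadditive T₀] [Limits.HasZeroObject T₀]
    [HasShift T₀ ℤ] [∀ n : ℤ, (shiftFunctor T₀ n).Additive] [Pretriangulated T₀]
    [MonoidalCategory T₀] [SymmetricCategory T₀] [RigidTT T₀]
    (R₀ : Realization T₀ (F o)) (hcom₀ : R₀.CommonGen R₀)
    (bc : BaseChange R₀ (R o)) (hs : SpreadsOut (R o) R₀) :
    (∀ t : TStructure T₀, Nondegenerate t → TensorCompatible t →
      (R₀.TExact t ↔ R₀.Conservative ∧ ∀ L L' : T₀, Nonempty (L ⊗ L' ≅ 𝟙_ T₀) →
        t.heart L → R₀.ConcentratedIn 0 L)) ∧
    (R₀.Conservative → ∀ t t' : TStructure T₀, Nondegenerate t → TensorCompatible t →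
      Nondegenerate t' → TensorCompatible t' →
      (∀ L L' : T₀, Nonempty (L ⊗ L' ≅ 𝟙_ T₀) → t.heart L → t'.heart L) → t = t') ∧
    (R₀.Conservative → ∀ t : TStructure T₀, Nondegenerate t → TensorCompatible t →
      ((∃ t : TStructure T, Nondegenerate t ∧ TensorCompatible t ∧ ∀ i, (R i).TExact t) ↔
        ∀ M : T₀, t.le (-1) M → (∀ i : ℤ, i < 0 → R₀.Van i M) → ∀ f : 𝟙_ T₀ ⟶ M, f = 0)) ∧
    List.TFAE [
      ∃ t : TStructure T, Nondegenerate t ∧ TensorCompatible t ∧ ∀ i, (R i).TExact t,
      ∃! t : TStructure T, Nondegenerate t ∧ TensorCompatible t ∧ ∀ i, (R i).TExact t,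
      ∃ t : TStructure T₀, Nondegenerate t ∧ TensorCompatible t ∧ R₀.TExact t,
      R₀.Conservative ∧ ∃ t : TStructure T₀, Nondegenerate t ∧ TensorCompatible t ∧
        ∀ L L' : T₀, Nonempty (L ⊗ L' ≅ 𝟙_ T₀) → t.heart L → R₀.ConcentratedIn 0 L,
      R₀.Conservative ∧ ∃ t : TStructure T₀, Nondegenerate t ∧ TensorCompatible t ∧
        ∀ M : T₀, t.le (-1) M → (∀ i : ℤ, i < 0 → R₀.Van i M) → ∀ f : 𝟙_ T₀ ⟶ M, f = 0,
      R₀.InjectiveOnCoconnective] := by
  have := RigidTT.octahedron (T := T)
  let _ := RigidTT.commShift (T := T)
  have := RigidTT.exact_left (T := T)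
  have := RigidTT.split (T := T)
  have hrig := RigidTT.rigid (T := T)
  have hconn := RigidTT.connected (T := T)
  have := RigidTT.octahedron (T := T₀)
  let _ := RigidTT.commShift (T := T₀)
  have := RigidTT.exact_left (T := T₀)
  have := RigidTT.split (T := T₀)
  have hrig₀ := RigidTT.rigid (T := T₀)
  have hconn₀ := RigidTT.connected (T := T₀)
  have := bc.comm
  have := bc.preservesZero
  have := bc.faithful
  -- the criterion for exactness
  have key : ∀ t : TStructure T₀, Nondegenerate t → TensorCompatible t →
      (R₀.TExact t ↔ R₀.Conservative ∧ ∀ L L' : T₀, Nonempty (L ⊗ L' ≅ 𝟙_ T₀) →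
        t.heart L → R₀.ConcentratedIn 0 L) := by
    intro t hnd ht
    constructor
    · intro hR
      exact ⟨Realization.conservative_of_exact hnd ht hrig₀ hconn₀ hR,
        fun L _ _ hL i hi => Realization.van_heart hR hL hi⟩
    · rintro ⟨hcons, hinv⟩
      exact Realization.texact_of_invertible hnd ht hrig₀ hcons hinv hcom₀
  -- from injectivity for `T₀` to the t-structure on `T`
  have up : R₀.InjectiveOnCoconnective →
      ∃! t : TStructure T, Nondegenerate t ∧ TensorCompatible t ∧ ∀ i, (R i).TExact t := by
    intro h
    obtain ⟨t, hnd, ht, hR⟩ := exists_t_of_inj hrig hconn R o hcom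
      (Realization.injectiveOnPure_of_coconnective
        (Realization.injectiveOnCoconnective_of_spreadsOut hs h))
    refine ⟨t, ⟨hnd, ht, hR⟩, ?_⟩
    rintro t' ⟨-, -, hR'⟩
    exact Realization.tstructure_ext (hR' o) (hR o)
      (Realization.conservative_of_exact hnd ht hrig hconn (hR o))
  -- and back
  have down : (∃ t : TStructure T, Nondegenerate t ∧ TensorCompatible t ∧
      ∀ i, (R i).TExact t) → R₀.InjectiveOnCoconnective := by
    rintro ⟨t, hnd, ht, hR⟩
    exact injectiveOnCoconnective_of_baseChange bc.fn bc.iso bc.unitIso
      (Realization.injectiveOnCoconnective_of_exact hnd ht hrig hconn (hR o))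
  refine ⟨key, ?_, ?_, ?_⟩
  · intro hcons t t' hnd ht hnd' ht' hinv
    exact tstructure_eq_of_invertible hrig₀ hcons hcom₀ hnd ht hnd' ht' hinv
  · intro hcons t hnd ht
    constructor
    · intro h M hM hM' f
      refine down h M hM' f (Realization.map_eq_zero_of_mp f ?_)
      exact (R₀.tmap_eq_zero_iff f).1
        (Realization.tmap_unit_eq_zero hnd ht hcons ⟨hM⟩ f) 0
    · intro h
      exact (up (injectiveOnCoconnective_of_orth hnd ht hrig₀ hcons
        fun M hM => h M hM.le)).exists
  tfae_have 2 → 1 := fun h => h.exists
  tfae_have 1 → 3 := by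
    intro h
    obtain ⟨t₀, h1, h2, h3⟩ := exists_t_of_inj hrig₀ hconn₀ (fun _ : Unit => R₀) ()
      (fun _ => hcom₀) (Realization.injectiveOnPure_of_coconnective (down h))
    exact ⟨t₀, h1, h2, h3 ()⟩
  tfae_have 3 → 4 := by
    rintro ⟨t, hnd, ht, hR⟩
    exact ⟨((key t hnd ht).1 hR).1, t, hnd, ht, ((key t hnd ht).1 hR).2⟩
  tfae_have 4 → 5 := by
    rintro ⟨hcons, t, hnd, ht, hinv⟩
    have hR := (key t hnd ht).2 ⟨hcons, hinv⟩
    refine ⟨hcons, t, hnd, ht, fun M hM hM' f => ?_⟩
    have hM0 : Limits.IsZero M := hcons M fun i => by
      rcases lt_or_ge i 0 with hi | hi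
      · exact hM' i hi
      · exact Realization.van_of_le hR (n := -1) ⟨hM⟩ (by lia)
    exact hM0.eq_of_tgt _ _
  tfae_have 5 → 6 := by
    rintro ⟨hcons, t, hnd, ht, h⟩
    exact injectiveOnCoconnective_of_orth hnd ht hrig₀ hcons fun M hM => h M hM.le
  tfae_have 6 → 2 := up
  tfae_finish

end Pool.Agent.Results.MP_6d0ce9_ag.Rigidity
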